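import Pool.Agent.Helper72.BB.Stubs

/-!
# MP_3dd6d4_an, stage 2, module S1 : Poisson formula for the strip
-/

set_option autoImplicit false

open MeasureTheory Complex FourierTransform Filter Topology
open scoped ENNReal NNReal ComplexConjugate

noncomputable section

namespace Helper72.BB.P

open Helper72.BA Helper72.BB

namespace S1x

theorem mem_closure_strip {z : ℂ} (h0 : 0 ≤ z.re) (h1 : z.re ≤ 1) : z ∈ closure strip := by
  have h : strip = Complex.re ⁻¹' Set.Ioo 0 1 := by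
    ext z
    simp [strip]
  rw [h, Complex.closure_preimage_re, closure_Ioo (by norm_num)]
  exact ⟨h0, h1⟩

theorem isOpen_strip : IsOpen strip := by
  have h : strip = Complex.re ⁻¹' Set.Ioo 0 1 := by
    ext z
    simp [strip]
  rw [h]
  exact isOpen_Ioo.preimage Complex.continuous_re

/-- `cos πθ - cos πz`. -/
def cc (θ : ℝ) (z : ℂ) : ℂ := Complex.cos (Real.pi * θ) - Complex.cos (Real.pi * z)

theorem cc_self (θ : ℝ) : cc θ θ = 0 := by
  unfold cc
  rw [sub_self]

theorem cc_deriv (θ : ℝ) (z : ℂ) : HasDerivAt (cc θ) (Real.pi * Complex.sin (Real.pi * z)) z := by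
  unfold cc
  have h1 : HasDerivAt (fun z : ℂ => (Real.pi : ℂ) * z) (Real.pi : ℂ) z := by
    simpa using (hasDerivAt_id z).const_mul (Real.pi : ℂ)
  have h2 := h1.ccos
  have h3 := h2.const_sub (Complex.cos (Real.pi * θ))
  have h4 : (Real.pi : ℂ) * Complex.sin (Real.pi * z) =
      -(-Complex.sin (Real.pi * z) * Real.pi) := by ring
  rw [h4]
  exact h3

theorem cc_ne_zero {θ : ℝ} (h0 : 0 < θ) (h1 : θ < 1) {z : ℂ} (hz0 : 0 ≤ z.re) (hz1 : z.re ≤ 1)
    (hz : z ≠ θ) : cc θ z ≠ 0 := by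
  intro h
  unfold cc at h
  rw [sub_eq_zero, Complex.cos_eq_cos_iff] at h
  obtain ⟨k, hk⟩ := h
  have hpi : (Real.pi : ℂ) ≠ 0 := by exact_mod_cast Real.pi_ne_zero
  rcases hk with hk | hk
  · have h2 : z = 2 * k + θ := by
      apply mul_left_cancel₀ hpi
      rw [hk]
      ring
    have h3 := congrArg Complex.re h2
    simp at h3
    have h4 : (-1 : ℝ) < 2 * k := by linarith
    have h5 : (2 : ℝ) * k < 1 := by linarith
    have h6 : (-1 : ℤ) < 2 * k := by exact_mod_cast h4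
    have h7 : 2 * k < (1 : ℤ) := by exact_mod_cast h5
    have h8 : k = 0 := by omega
    apply hz
    rw [h2, h8]
    simp
  · have h2 : z = 2 * k - θ := by
      apply mul_left_cancel₀ hpi
      rw [hk]
      ring
    have h3 := congrArg Complex.re h2
    simp at h3
    have h4 : (0 : ℝ) < 2 * k := by linarith
    have h5 : (2 : ℝ) * k < 2 := by linarith
    have h6 : (0 : ℤ) < 2 * k := by exact_mod_cast h4
    have h7 : 2 * k < (2 : ℤ) := by exact_mod_cast h5
    omega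

theorem sin_pos {θ : ℝ} (h0 : 0 < θ) (h1 : θ < 1) : 0 < Real.sin (Real.pi * θ) := by
  apply Real.sin_pos_of_pos_of_lt_pi
  · exact mul_pos Real.pi_pos h0
  · nlinarith [Real.pi_pos]

/-- The function of the contour integral. -/
def GG (θ : ℝ) (F : ℂ → ℂ) (z : ℂ) : ℂ := dslope F θ z / dslope (cc θ) θ z

theorem GG_of_ne {θ : ℝ} (F : ℂ → ℂ) {z : ℂ} (hz : z ≠ θ) :
    GG θ F z = (F z - F θ) / cc θ z := by
  unfold GG
  rw [dslope_of_ne _ hz, dslope_of_ne _ hz, slope_def_field, slope_def_field, cc_self, sub_zero,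
    div_div_div_cancel_right₀ (sub_ne_zero.2 hz)]

theorem dslope_cc_ne {θ : ℝ} (h0 : 0 < θ) (h1 : θ < 1) {z : ℂ} (hz0 : 0 ≤ z.re)
    (hz1 : z.re ≤ 1) : dslope (cc θ) θ z ≠ 0 := by
  by_cases hz : z = θ
  · rw [hz, dslope_same, (cc_deriv θ θ).deriv]
    refine mul_ne_zero (by exact_mod_cast Real.pi_ne_zero) ?_
    rw [← Complex.ofReal_mul, ← Complex.ofReal_sin]
    exact_mod_cast (sin_pos h0 h1).ne'
  · rw [dslope_of_ne _ hz, slope_def_field, cc_self, sub_zero]
    exact div_ne_zero (cc_ne_zero h0 h1 hz0 hz1 hz) (sub_ne_zero.2 hz)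

theorem GG_cont {θ : ℝ} (h0 : 0 < θ) (h1 : θ < 1) {F : ℂ → ℂ} (hF : DiffContOnCl ℂ F strip) :
    ContinuousOn (GG θ F) {z : ℂ | 0 ≤ z.re ∧ z.re ≤ 1} := by
  have hs : (θ : ℂ) ∈ strip := by
    simp only [strip, Set.mem_ofPred_eq, Complex.ofReal_re]
    exact ⟨h0, h1⟩
  have hn : {z : ℂ | 0 ≤ z.re ∧ z.re ≤ 1} ∈ 𝓝 (θ : ℂ) := by
    refine Filter.mem_of_superset (isOpen_strip.mem_nhds hs) ?_
    intro z hz
    exact ⟨hz.1.le, hz.2.le⟩
  unfold GG
  refine ContinuousOn.div ?_ ?_ ?_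
  · rw [continuousOn_dslope hn]
    refine ⟨hF.continuousOn.mono fun z hz => mem_closure_strip hz.1 hz.2, ?_⟩
    exact hF.differentiableAt isOpen_strip hs
  · rw [continuousOn_dslope hn]
    refine ⟨fun z _ => (cc_deriv θ z).continuousAt.continuousWithinAt, ?_⟩
    exact (cc_deriv θ θ).differentiableAt
  · intro z hz
    exact dslope_cc_ne h0 h1 hz.1 hz.2

theorem GG_diff {θ : ℝ} (h0 : 0 < θ) (h1 : θ < 1) {F : ℂ → ℂ} (hF : DiffContOnCl ℂ F strip)
    {z : ℂ} (hz0 : 0 < z.re) (hz1 : z.re < 1) (hz : z ≠ θ) : DifferentiableAt ℂ (GG θ F) z := by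
  unfold GG
  refine DifferentiableAt.fun_div ?_ ?_ (dslope_cc_ne h0 h1 hz0.le hz1.le)
  · rw [differentiableAt_dslope_of_ne hz]
    exact hF.differentiableAt isOpen_strip ⟨hz0, hz1⟩
  · rw [differentiableAt_dslope_of_ne hz]
    exact (cc_deriv θ z).differentiableAt

/-- Cauchy's theorem. -/
theorem rect {θ : ℝ} (h0 : 0 < θ) (h1 : θ < 1) {F : ℂ → ℂ} (hF : DiffContOnCl ℂ F strip)
    (T : ℝ) :
    (∫ x : ℝ in (0:ℝ)..1, GG θ F (x + ((-T : ℝ) : ℂ) * I)) -
      (∫ x : ℝ in (0:ℝ)..1, GG θ F (x + (T : ℂ) * I)) +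
      I • (∫ y : ℝ in (-T)..T, GG θ F ((1:ℂ) + y * I)) -
      I • ∫ y : ℝ in (-T)..T, GG θ F ((0:ℂ) + y * I) = 0 := by
  have h := Complex.integral_boundary_rect_eq_zero_of_differentiable_on_off_countable (GG θ F)
    (⟨0, -T⟩ : ℂ) (⟨1, T⟩ : ℂ) {(θ : ℂ)} (Set.countable_singleton _) ?_ ?_
  · simpa using h
  · refine (GG_cont h0 h1 hF).mono ?_
    intro z hz
    rw [Complex.mem_reProdIm] at hz
    have h2 := hz.1
    simp only [Set.uIcc_of_le zero_le_one] at h2
    exact h2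
  · intro z hz
    have h2 := hz.1
    rw [Complex.mem_reProdIm] at h2
    have h3 := h2.1
    simp only [min_eq_left (zero_le_one' ℝ), max_eq_right (zero_le_one' ℝ)] at h3
    exact GG_diff h0 h1 hF h3.1 h3.2 hz.2

/-- Lower bound for `cos`. -/
theorem norm_cos_ge (z : ℂ) : (Real.exp |z.im| - 1) / 2 ≤ ‖Complex.cos z‖ := by
  have key : ∀ z : ℂ, 0 ≤ z.im → (Real.exp z.im - 1) / 2 ≤ ‖Complex.cos z‖ := by
    intro z hz
    have h1 : ‖cexp (-z * I)‖ - ‖cexp (z * I)‖ ≤ ‖cexp (z * I) + cexp (-z * I)‖ := by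
      have := norm_sub_norm_le (cexp (-z * I)) (-cexp (z * I))
      rw [norm_neg, sub_neg_eq_add, add_comm (cexp (-z * I))] at this
      exact this
    rw [Complex.norm_exp, Complex.norm_exp] at h1
    have h2 : (-z * I).re = z.im := by simp
    have h3 : (z * I).re = -z.im := by simp
    rw [h2, h3] at h1
    have h4 : Real.exp (-z.im) ≤ 1 := Real.exp_le_one_iff.2 (by linarith)
    unfold Complex.cos
    rw [norm_div, Complex.norm_ofNat]
    gcongr
    linarith
  rcases le_total 0 z.im with h | h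
  · rw [abs_of_nonneg h]
    exact key z h
  · rw [abs_of_nonpos h, ← Complex.cos_neg]
    exact key (-z) (by simpa using h)

/-- Bound on the horizontal sides. -/
theorem GG_bound {θ : ℝ} (h0 : 0 < θ) (h1 : θ < 1) {F : ℂ → ℂ} {C : ℝ}
    (hb : ∀ z : ℂ, 0 ≤ z.re → z.re ≤ 1 → ‖F z‖ ≤ C * (1 + |z.im|) ^ 6) {T : ℝ} (hT : 2 ≤ T)
    {z : ℂ} (hz0 : 0 ≤ z.re) (hz1 : z.re ≤ 1) (hz : |z.im| = T) :
    ‖GG θ F z‖ ≤ 4 * Real.exp 1 * (C + ‖F θ‖) * ((1 + T) ^ 6 * Real.exp (-(1 + T))) := by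
  have hC : 0 ≤ C := by
    have := (norm_nonneg _).trans (hb 0 (by simp) (by simp))
    simpa using this
  have hne : z ≠ θ := by
    rintro rfl
    simp at hz
    linarith
  rw [GG_of_ne F hne, norm_div]
  have hpiT : (3:ℝ) * T ≤ Real.pi * T := by
    have := Real.pi_gt_three
    nlinarith
  have hE : 6 ≤ Real.exp (Real.pi * T) := by
    have := Real.add_one_le_exp (Real.pi * T)
    linarith
  have hc : Real.exp (Real.pi * T) / 4 ≤ ‖cc θ z‖ := by
    have h2 : ‖Complex.cos (Real.pi * z)‖ - ‖Complex.cos (Real.pi * θ)‖ ≤ ‖cc θ z‖ := by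
      unfold cc
      rw [norm_sub_rev]
      exact norm_sub_norm_le _ _
    have h3 := norm_cos_ge ((Real.pi : ℂ) * z)
    have h4 : |((Real.pi : ℂ) * z).im| = Real.pi * T := by
      rw [Complex.im_ofReal_mul, abs_mul, abs_of_pos Real.pi_pos, hz]
    have h5 : ‖Complex.cos (Real.pi * θ)‖ ≤ 1 := by
      rw [← Complex.ofReal_mul, ← Complex.ofReal_cos, Complex.norm_real]
      exact Real.abs_cos_le_one _
    rw [h4] at h3
    linarith
  have hcpos : 0 < Real.exp (Real.pi * T) / 4 := by positivity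
  have hnum : ‖F z - F θ‖ ≤ (C + ‖F θ‖) * (1 + T) ^ 6 := by
    have h2 := hb z hz0 hz1
    rw [hz] at h2
    have h3 : 1 ≤ (1 + T) ^ 6 := one_le_pow₀ (by linarith)
    calc ‖F z - F θ‖ ≤ ‖F z‖ + ‖F θ‖ := norm_sub_le _ _
      _ ≤ C * (1 + T) ^ 6 + ‖F θ‖ * (1 + T) ^ 6 := by
          refine add_le_add h2 ?_
          exact le_mul_of_one_le_right (norm_nonneg _) h3
      _ = _ := by ring
  calc ‖F z - F θ‖ / ‖cc θ z‖ ≤ ((C + ‖F θ‖) * (1 + T) ^ 6) / (Real.exp (Real.pi * T) / 4) :=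
        div_le_div₀ (by positivity) hnum hcpos hc
    _ = 4 * (C + ‖F θ‖) * (1 + T) ^ 6 * Real.exp (-(Real.pi * T)) := by
        rw [Real.exp_neg]
        field_simp
    _ ≤ 4 * (C + ‖F θ‖) * (1 + T) ^ 6 * (Real.exp 1 * Real.exp (-(1 + T))) := by
        rw [← Real.exp_add]
        gcongr
        linarith
    _ = _ := by ring

end S1x

open S1x in
theorem strip_formula (θ : ℝ) (h0 : 0 < θ) (h1 : θ < 1) (F : ℂ → ℂ) (hF : DiffContOnCl ℂ F strip)
    (hb : ∃ C : ℝ, ∀ z : ℂ, 0 ≤ z.re → z.re ≤ 1 → ‖F z‖ ≤ C * (1 + |z.im|) ^ 6) :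
    Integrable (fun y : ℝ => (om0 θ y : ℂ) * F (y * I)) ∧
    Integrable (fun y : ℝ => (om1 θ y : ℂ) * F (1 + y * I)) ∧
    F θ = (∫ y : ℝ, (om0 θ y : ℂ) * F (y * I)) + ∫ y : ℝ, (om1 θ y : ℂ) * F (1 + y * I) := by
  obtain ⟨C, hC⟩ := hb
  have hsin := sin_pos h0 h1
  have hsinC : (Real.sin (Real.pi * θ) : ℂ) ≠ 0 := by exact_mod_cast hsin.ne'
  -- continuity of `F` on the sides
  have hc0 : Continuous (fun y : ℝ => F (y * I)) :=
    hF.continuousOn.comp_continuous (by fun_prop) fun y =>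
      mem_closure_strip (by simp) (by simp)
  have hc1 : Continuous (fun y : ℝ => F (1 + y * I)) :=
    hF.continuousOn.comp_continuous (by fun_prop) fun y =>
      mem_closure_strip (by simp) (by simp)
  obtain ⟨ho0, ho1⟩ := om_cont θ h0 h1
  obtain ⟨hi0, hi1⟩ := om_int θ h0 h1 6
  obtain ⟨hj0, hj1⟩ := om_int θ h0 h1 0
  simp only [pow_zero, mul_one] at hj0 hj1
  obtain ⟨hm0, hm1⟩ := om_mass θ h0 h1
  have hI0 : Integrable (fun y : ℝ => (om0 θ y : ℂ) * F (y * I)) := by
    refine Integrable.mono' (hi0.const_mul C)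
      ((Complex.continuous_ofReal.comp ho0).mul hc0).aestronglyMeasurable ?_
    refine Eventually.of_forall fun y => ?_
    rw [norm_mul, Complex.norm_real, Real.norm_eq_abs, abs_of_pos (om_pos θ y h0 h1).1]
    have h2 := hC (y * I) (by simp) (by simp)
    have h3 : ((y : ℂ) * I).im = y := by simp
    rw [h3] at h2
    calc om0 θ y * ‖F (y * I)‖ ≤ om0 θ y * (C * (1 + |y|) ^ 6) :=
          mul_le_mul_of_nonneg_left h2 (om_pos θ y h0 h1).1.le
      _ = _ := by ring
  have hI1 : Integrable (fun y : ℝ => (om1 θ y : ℂ) * F (1 + y * I)) := by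
    refine Integrable.mono' (hi1.const_mul C)
      ((Complex.continuous_ofReal.comp ho1).mul hc1).aestronglyMeasurable ?_
    refine Eventually.of_forall fun y => ?_
    rw [norm_mul, Complex.norm_real, Real.norm_eq_abs, abs_of_pos (om_pos θ y h0 h1).2]
    have h2 := hC (1 + y * I) (by simp) (by simp)
    have h3 : ((1 : ℂ) + (y : ℂ) * I).im = y := by simp
    rw [h3] at h2
    calc om1 θ y * ‖F (1 + y * I)‖ ≤ om1 θ y * (C * (1 + |y|) ^ 6) :=
          mul_le_mul_of_nonneg_left h2 (om_pos θ y h0 h1).2.le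
      _ = _ := by ring
  refine ⟨hI0, hI1, ?_⟩
  have hJ0 : Integrable (fun y : ℝ => (om0 θ y : ℂ) * F θ) :=
    (hj0.ofReal (𝕜 := ℂ)).mul_const _
  have hJ1 : Integrable (fun y : ℝ => (om1 θ y : ℂ) * F θ) :=
    (hj1.ofReal (𝕜 := ℂ)).mul_const _
  -- values of `GG` on the vertical sides
  have hv0 : ∀ y : ℝ, GG θ F ((0:ℂ) + y * I) =
      -(2 / (Real.sin (Real.pi * θ) : ℂ)) * ((om0 θ y : ℂ) * F (y * I) - (om0 θ y : ℂ) * F θ) := by
    intro y
    have hne : (0:ℂ) + y * I ≠ θ := by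
      intro h
      have := congrArg Complex.re h
      simp at this
      linarith
    rw [GG_of_ne F hne]
    have hcc : cc θ ((0:ℂ) + y * I) =
        -((Real.cosh (Real.pi * y) - Real.cos (Real.pi * θ) : ℝ) : ℂ) := by
      unfold cc
      have : (Real.pi : ℂ) * (0 + y * I) = ((Real.pi * y : ℝ) : ℂ) * I := by push_cast; ring
      rw [this, Complex.cos_mul_I]
      push_cast
      ring
    have hpos : 0 < Real.cosh (Real.pi * y) - Real.cos (Real.pi * θ) := by
      by_contra hneg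
      have h2 := (om_pos θ y h0 h1).1
      unfold om0 at h2
      rcases (not_lt.1 hneg).eq_or_lt with h3 | h3
      · rw [h3] at h2
        simp at h2
      · have := div_neg_of_pos_of_neg hsin (by linarith : 2 * (Real.cosh (Real.pi * y) - Real.cos (Real.pi * θ)) < 0)
        linarith
    have hposC : ((Real.cosh (Real.pi * y) - Real.cos (Real.pi * θ) : ℝ) : ℂ) ≠ 0 := by
      exact_mod_cast hpos.ne'
    rw [hcc]
    unfold om0
    have e : ((Real.sin (Real.pi * θ) / (2 * (Real.cosh (Real.pi * y) - Real.cos (Real.pi * θ))) : ℝ) : ℂ)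
        = (Real.sin (Real.pi * θ) : ℂ) /
          (2 * ((Real.cosh (Real.pi * y) - Real.cos (Real.pi * θ) : ℝ) : ℂ)) := by
      push_cast
      ring
    rw [e, zero_add]
    generalize ((Real.cosh (Real.pi * y) - Real.cos (Real.pi * θ) : ℝ) : ℂ) = D at hposC
    field_simp
    try ring
  have hv1 : ∀ y : ℝ, GG θ F ((1:ℂ) + y * I) =
      (2 / (Real.sin (Real.pi * θ) : ℂ)) *
        ((om1 θ y : ℂ) * F (1 + y * I) - (om1 θ y : ℂ) * F θ) := by
    intro y
    have hne : (1:ℂ) + y * I ≠ θ := by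
      intro h
      have := congrArg Complex.re h
      simp at this
      linarith
    rw [GG_of_ne F hne]
    have hcc : cc θ ((1:ℂ) + y * I) =
        ((Real.cosh (Real.pi * y) + Real.cos (Real.pi * θ) : ℝ) : ℂ) := by
      unfold cc
      have : (Real.pi : ℂ) * (1 + y * I) = ((Real.pi * y : ℝ) : ℂ) * I + Real.pi := by
        push_cast; ring
      rw [this, Complex.cos_add_pi, Complex.cos_mul_I]
      push_cast
      ring
    have hpos : 0 < Real.cosh (Real.pi * y) + Real.cos (Real.pi * θ) := by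
      by_contra hneg
      have h2 := (om_pos θ y h0 h1).2
      unfold om1 at h2
      rcases (not_lt.1 hneg).eq_or_lt with h3 | h3
      · rw [h3] at h2
        simp at h2
      · have := div_neg_of_pos_of_neg hsin (by linarith : 2 * (Real.cosh (Real.pi * y) + Real.cos (Real.pi * θ)) < 0)
        linarith
    have hposC : ((Real.cosh (Real.pi * y) + Real.cos (Real.pi * θ) : ℝ) : ℂ) ≠ 0 := by
      exact_mod_cast hpos.ne'
    rw [hcc]
    unfold om1
    have e : ((Real.sin (Real.pi * θ) / (2 * (Real.cosh (Real.pi * y) + Real.cos (Real.pi * θ))) : ℝ) : ℂ)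
        = (Real.sin (Real.pi * θ) : ℂ) /
          (2 * ((Real.cosh (Real.pi * y) + Real.cos (Real.pi * θ) : ℝ) : ℂ)) := by
      push_cast
      ring
    rw [e]
    generalize ((Real.cosh (Real.pi * y) + Real.cos (Real.pi * θ) : ℝ) : ℂ) = D at hposC
    field_simp
  -- limits
  set K : ℝ := 4 * Real.exp 1 * (C + ‖F θ‖) with hK
  have hbd : Tendsto (fun T : ℝ => K * ((1 + T) ^ 6 * Real.exp (-(1 + T)))) atTop (𝓝 0) := by
    have h2 := (Real.tendsto_pow_mul_exp_neg_atTop_nhds_zero 6).comp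
      (tendsto_atTop_add_const_left atTop (1:ℝ) tendsto_id)
    simpa using h2.const_mul K
  have hlim1 : Tendsto (fun T : ℝ => ∫ x : ℝ in (0:ℝ)..1, GG θ F (x + ((-T : ℝ) : ℂ) * I)) atTop
      (𝓝 0) := by
    refine squeeze_zero_norm' ?_ hbd
    filter_upwards [eventually_ge_atTop 2] with T hT
    have h2 := intervalIntegral.norm_integral_le_of_norm_le_const (a := (0:ℝ)) (b := 1)
      (f := fun x : ℝ => GG θ F (x + ((-T : ℝ) : ℂ) * I)) (C := K * ((1 + T) ^ 6 * Real.exp (-(1 + T))))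
      (by
        intro x hx
        rw [Set.uIoc_of_le zero_le_one] at hx
        refine GG_bound h0 h1 hC hT ?_ ?_ ?_
        · simpa using hx.1.le
        · simpa using hx.2
        · simp only [Complex.add_im, Complex.ofReal_im, Complex.mul_im, Complex.ofReal_re,
            Complex.I_im, Complex.I_re]
          rw [show (0 + (-T * 1 + 0 * 0) : ℝ) = -T by ring, abs_neg, abs_of_nonneg (by linarith)])
    simpa using h2
  have hlim2 : Tendsto (fun T : ℝ => ∫ x : ℝ in (0:ℝ)..1, GG θ F (x + (T : ℂ) * I)) atTop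
      (𝓝 0) := by
    refine squeeze_zero_norm' ?_ hbd
    filter_upwards [eventually_ge_atTop 2] with T hT
    have h2 := intervalIntegral.norm_integral_le_of_norm_le_const (a := (0:ℝ)) (b := 1)
      (f := fun x : ℝ => GG θ F (x + (T : ℂ) * I)) (C := K * ((1 + T) ^ 6 * Real.exp (-(1 + T))))
      (by
        intro x hx
        rw [Set.uIoc_of_le zero_le_one] at hx
        refine GG_bound h0 h1 hC hT ?_ ?_ ?_
        · simpa using hx.1.le
        · simpa using hx.2
        · simp only [Complex.add_im, Complex.ofReal_im, Complex.mul_im, Complex.ofReal_re,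
            Complex.I_im, Complex.I_re]
          rw [show (0 + (T * 1 + 0 * 0) : ℝ) = T by ring, abs_of_nonneg (by linarith)])
    simpa using h2
  have hlim3 : Tendsto (fun T : ℝ => ∫ y : ℝ in (-T)..T, GG θ F ((1:ℂ) + y * I)) atTop
      (𝓝 (∫ y : ℝ, GG θ F ((1:ℂ) + y * I))) := by
    refine intervalIntegral_tendsto_integral ?_ tendsto_neg_atTop_atBot tendsto_id
    simp_rw [hv1]
    exact (hI1.sub hJ1).const_mul _
  have hlim4 : Tendsto (fun T : ℝ => ∫ y : ℝ in (-T)..T, GG θ F ((0:ℂ) + y * I)) atTop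
      (𝓝 (∫ y : ℝ, GG θ F ((0:ℂ) + y * I))) := by
    refine intervalIntegral_tendsto_integral ?_ tendsto_neg_atTop_atBot tendsto_id
    simp_rw [hv0]
    exact (hI0.sub hJ0).const_mul _
  have hlim := ((hlim1.sub hlim2).add (hlim3.const_smul I)).sub (hlim4.const_smul I)
  have hzero : Tendsto (fun _ : ℝ => (0:ℂ)) atTop (𝓝 (0 - 0 + I • (∫ y : ℝ, GG θ F ((1:ℂ) + y * I)) -
      I • ∫ y : ℝ, GG θ F ((0:ℂ) + y * I))) := by
    refine hlim.congr' ?_
    filter_upwards [eventually_gt_atTop 0] with T hT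
    exact rect h0 h1 hF T
  have hfin := tendsto_nhds_unique hzero tendsto_const_nhds
  rw [sub_zero, zero_add, ← smul_sub, smul_eq_zero] at hfin
  have hfin2 := hfin.resolve_left Complex.I_ne_zero
  simp_rw [hv0, hv1] at hfin2
  rw [integral_const_mul, integral_const_mul, integral_sub hI1 hJ1, integral_sub hI0 hJ0,
    integral_mul_const, integral_mul_const, integral_complex_ofReal, integral_complex_ofReal,
    hm0, hm1] at hfin2
  have h2ne : (2 / (Real.sin (Real.pi * θ) : ℂ)) ≠ 0 := div_ne_zero two_ne_zero hsinC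
  have hfin3 : (2 / (Real.sin (Real.pi * θ) : ℂ)) *
      ((∫ y : ℝ, (om1 θ y : ℂ) * F (1 + y * I)) - (θ : ℂ) * F θ +
        ((∫ y : ℝ, (om0 θ y : ℂ) * F (y * I)) - ((1 - θ : ℝ) : ℂ) * F θ)) = 0 := by
    linear_combination hfin2
  have hfin4 := (mul_eq_zero.1 hfin3).resolve_left h2ne
  push_cast at hfin4
  linear_combination -hfin4

end Helper72.BB.P
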