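import Pool.Agent.Helper72.BB.Stubs

/-!
# MP_3dd6d4_an, stage 2, module S3 : Riesz composition formula with complex exponents
-/

set_option autoImplicit false

open MeasureTheory Complex FourierTransform Filter Topology
open scoped ENNReal NNReal ComplexConjugate

noncomputable section

namespace Helper72.BB.P

open Helper72.BA Helper72.BB

namespace S3x

/-- Almost every point is different from two given points. -/
theorem ae_ne (z : ℂ) : ∀ᵐ w : ℂ, w ≠ 0 ∧ z - w ≠ 0 := by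
  have h1 : ∀ᵐ w : ℂ, w ≠ 0 := by
    simp [ae_iff]
  have h2 : ∀ᵐ w : ℂ, w ≠ z := by
    simp [ae_iff]
  filter_upwards [h1, h2] with w hw1 hw2
  exact ⟨hw1, sub_ne_zero.2 (Ne.symm hw2)⟩

/-- The complex power of a positive number is the exponential. -/
theorem cpow_exp {x : ℝ} (hx : 0 < x) (s : ℂ) : (x : ℂ) ^ s = cexp (Real.log x * s) := by
  rw [Complex.cpow_def_of_ne_zero (by exact_mod_cast hx.ne'), Complex.ofReal_log hx.le]

/-- Measurability of the integrand. -/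
theorem meas_cc (a b z : ℂ) :
    Measurable (fun w : ℂ => ((‖w‖ : ℝ) : ℂ) ^ a * ((‖z - w‖ : ℝ) : ℂ) ^ b) := by
  fun_prop

/-- Integrability of the integrand. -/
theorem int_cc (a b : ℂ) (ha : 0 < a.re) (hb : 0 < b.re) (hab : a.re + b.re < 2) (z : ℂ)
    (hz : z ≠ 0) :
    Integrable (fun w : ℂ => ((‖w‖ : ℝ) : ℂ) ^ (a - 2) * ((‖z - w‖ : ℝ) : ℂ) ^ (b - 2)) := by
  refine ⟨(meas_cc _ _ z).aestronglyMeasurable, ?_⟩
  have h := Helper72.BA.P.riesz_comp a.re b.re ha hb hab z hz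
  have e : ∫⁻ w : ℂ, ‖((‖w‖ : ℝ) : ℂ) ^ (a - 2) * ((‖z - w‖ : ℝ) : ℂ) ^ (b - 2)‖ₑ =
      ∫⁻ w : ℂ, ‖w‖ₑ ^ (a.re - 2) * ‖z - w‖ₑ ^ (b.re - 2) := by
    refine lintegral_congr_ae ?_
    filter_upwards [ae_ne z] with w hw
    have h1 : 0 < ‖w‖ := norm_pos_iff.2 hw.1
    have h2 : 0 < ‖z - w‖ := norm_pos_iff.2 hw.2
    rw [← ofReal_norm, norm_mul, Complex.norm_cpow_eq_rpow_re_of_pos h1,
      Complex.norm_cpow_eq_rpow_re_of_pos h2, ENNReal.ofReal_mul (Real.rpow_nonneg h1.le _),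
      ← ENNReal.ofReal_rpow_of_pos h1, ← ENNReal.ofReal_rpow_of_pos h2, ofReal_norm, ofReal_norm]
    simp
  unfold HasFiniteIntegral
  rw [e, h]
  refine ENNReal.mul_lt_top ENNReal.ofReal_lt_top ?_
  rw [← ofReal_norm, ENNReal.ofReal_rpow_of_pos (norm_pos_iff.2 hz)]
  exact ENNReal.ofReal_lt_top

/-- The formula for real exponents, with Bochner integrals. -/
theorem real_cc (a b : ℝ) (ha : 0 < a) (hb : 0 < b) (hab : a + b < 2) (z : ℂ) (hz : z ≠ 0) :
    ∫ w : ℂ, ((‖w‖ : ℝ) : ℂ) ^ ((a : ℂ) - 2) * ((‖z - w‖ : ℝ) : ℂ) ^ ((b : ℂ) - 2) =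
      Gcc a * Gcc b / Gcc (a + b) * ((‖z‖ : ℝ) : ℂ) ^ ((a : ℂ) + b - 2) := by
  have hr : 0 < ‖z‖ := norm_pos_iff.2 hz
  have hG : ∀ c : ℝ, Gcc (c : ℂ) = ((Gc c : ℝ) : ℂ) := by
    intro c
    unfold Gcc Gc
    have h1 : ((c : ℂ) / 2) = ((c / 2 : ℝ) : ℂ) := by push_cast; ring
    have h2 : (1 - (c : ℂ) / 2) = ((1 - c / 2 : ℝ) : ℂ) := by push_cast; ring
    rw [h2, h1, Complex.Gamma_ofReal, Complex.Gamma_ofReal]
    push_cast
    ring
  have hGpos : ∀ c : ℝ, 0 < c → c < 2 → 0 < Gc c := by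
    intro c h0 h1
    unfold Gc
    exact div_pos (mul_pos Real.pi_pos (Real.Gamma_pos_of_pos (by linarith)))
      (Real.Gamma_pos_of_pos (by linarith))
  have h := Helper72.BA.P.riesz_comp a b ha hb hab z hz
  have e1 : ∀ᵐ w : ℂ, ((‖w‖ : ℝ) : ℂ) ^ ((a : ℂ) - 2) * ((‖z - w‖ : ℝ) : ℂ) ^ ((b : ℂ) - 2) =
      ((‖w‖ ^ (a - 2) * ‖z - w‖ ^ (b - 2) : ℝ) : ℂ) := by
    filter_upwards [ae_ne z] with w hw
    have h1 : 0 < ‖w‖ := norm_pos_iff.2 hw.1
    have h2 : 0 < ‖z - w‖ := norm_pos_iff.2 hw.2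
    rw [Complex.ofReal_mul, Complex.ofReal_cpow h1.le, Complex.ofReal_cpow h2.le]
    push_cast
    rfl
  rw [integral_congr_ae e1, integral_complex_ofReal]
  have e2 : ∫ w : ℂ, ‖w‖ ^ (a - 2) * ‖z - w‖ ^ (b - 2) =
      Gc a * Gc b / Gc (a + b) * ‖z‖ ^ (a + b - 2) := by
    rw [integral_eq_lintegral_of_nonneg_ae]
    · have e3 : ∫⁻ w : ℂ, ENNReal.ofReal (‖w‖ ^ (a - 2) * ‖z - w‖ ^ (b - 2)) =
          ∫⁻ w : ℂ, ‖w‖ₑ ^ (a - 2) * ‖z - w‖ₑ ^ (b - 2) := by
        refine lintegral_congr_ae ?_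
        filter_upwards [ae_ne z] with w hw
        have h1 : 0 < ‖w‖ := norm_pos_iff.2 hw.1
        have h2 : 0 < ‖z - w‖ := norm_pos_iff.2 hw.2
        rw [ENNReal.ofReal_mul (Real.rpow_nonneg h1.le _),
          ← ENNReal.ofReal_rpow_of_pos h1, ← ENNReal.ofReal_rpow_of_pos h2, ofReal_norm,
          ofReal_norm]
      rw [e3, h, ENNReal.toReal_mul, ENNReal.toReal_ofReal, ← ofReal_norm,
        ENNReal.ofReal_rpow_of_pos hr, ENNReal.toReal_ofReal (Real.rpow_nonneg hr.le _)]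
      exact (div_pos (mul_pos (hGpos a ha (by linarith)) (hGpos b hb (by linarith)))
        (hGpos (a + b) (by linarith) hab)).le
    · exact Eventually.of_forall fun w =>
        mul_nonneg (Real.rpow_nonneg (norm_nonneg _) _) (Real.rpow_nonneg (norm_nonneg _) _)
    · refine Measurable.aestronglyMeasurable ?_
      fun_prop
  rw [e2, hG, hG]
  have h3 : Gcc ((a : ℂ) + b) = ((Gc (a + b) : ℝ) : ℂ) := by
    rw [← hG]
    push_cast
    rfl
  rw [h3, Complex.ofReal_mul, Complex.ofReal_cpow hr.le]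
  push_cast
  rfl

/-- `Gcc` is differentiable in the strip. -/
theorem diff_Gcc {a : ℂ} (ha : 0 < a.re) : DifferentiableAt ℂ Gcc a := by
  unfold Gcc
  have h1 : DifferentiableAt ℂ (fun a : ℂ => Complex.Gamma (a / 2)) a := by
    refine DifferentiableAt.comp (g := Complex.Gamma) (f := fun a : ℂ => a / 2) a ?_ (by fun_prop)
    refine Complex.differentiableAt_Gamma _ fun m h => ?_
    have := congrArg Complex.re h
    simp at this
    have hm : (0:ℝ) ≤ m := Nat.cast_nonneg m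
    linarith
  have h2 : DifferentiableAt ℂ (fun a : ℂ => (Complex.Gamma (1 - a / 2))⁻¹) a :=
    DifferentiableAt.comp (g := fun s : ℂ => (Complex.Gamma s)⁻¹) (f := fun a : ℂ => 1 - a / 2) a
      (Complex.differentiable_one_div_Gamma _) (by fun_prop)
  simp only [div_eq_mul_inv] at h1 h2 ⊢
  exact (h1.const_mul _).mul h2

/-- `1 / Gcc` is differentiable in the strip. -/
theorem diff_Gcc_inv {a : ℂ} (ha : a.re < 2) : DifferentiableAt ℂ (fun s => (Gcc s)⁻¹) a := by
  have h1 : DifferentiableAt ℂ (fun a : ℂ => Complex.Gamma (1 - a / 2)) a := by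
    refine DifferentiableAt.comp (g := Complex.Gamma) (f := fun a : ℂ => 1 - a / 2) a ?_
      (by fun_prop)
    refine Complex.differentiableAt_Gamma _ fun m h => ?_
    have := congrArg Complex.re h
    simp at this
    have hm : (0:ℝ) ≤ m := Nat.cast_nonneg m
    linarith
  have h2 : DifferentiableAt ℂ (fun a : ℂ => (Complex.Gamma (a / 2))⁻¹) a :=
    DifferentiableAt.comp (g := fun s : ℂ => (Complex.Gamma s)⁻¹) (f := fun a : ℂ => a / 2) a
      (Complex.differentiable_one_div_Gamma _) (by fun_prop)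
  have h3 : (fun s => (Gcc s)⁻¹) =
      fun s : ℂ => (Real.pi : ℂ)⁻¹ * (Complex.Gamma (s / 2))⁻¹ * Complex.Gamma (1 - s / 2) := by
    funext s
    unfold Gcc
    rw [inv_div, div_eq_mul_inv, mul_inv]
    ring
  rw [h3]
  exact (h2.const_mul _).mul h1

end S3x

open S3x ProbabilityTheory in
theorem riesz_cc (a b : ℂ) (ha : 0 < a.re) (hb : 0 < b.re) (hab : a.re + b.re < 2) (z : ℂ) (hz : z ≠ 0) :
    Integrable (fun w : ℂ => ((‖w‖ : ℝ) : ℂ) ^ (a - 2) * ((‖z - w‖ : ℝ) : ℂ) ^ (b - 2)) ∧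
    ∫ w : ℂ, ((‖w‖ : ℝ) : ℂ) ^ (a - 2) * ((‖z - w‖ : ℝ) : ℂ) ^ (b - 2) =
      Gcc a * Gcc b / Gcc (a + b) * ((‖z‖ : ℝ) : ℂ) ^ (a + b - 2) := by
  refine ⟨int_cc a b ha hb hab z hz, ?_⟩
  have hr : 0 < ‖z‖ := norm_pos_iff.2 hz
  -- the line through `(a.re, b.re)` and `(a, b)`
  set A : ℂ → ℂ := fun s => (a.re : ℂ) + s * a.im with hA
  set Bf : ℂ → ℂ := fun s => (b.re : ℂ) + s * b.im with hB
  have hAre : ∀ s, (A s).re = a.re + s.re * a.im := by intro s; simp [hA]
  have hBre : ∀ s, (Bf s).re = b.re + s.re * b.im := by intro s; simp [hB]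
  -- the density
  set dens : ℂ → ℝ≥0 := fun w => Real.toNNReal (‖w‖ ^ (a.re - 2) * ‖z - w‖ ^ (b.re - 2)) with hdens
  have hdm : Measurable dens := by
    rw [hdens]
    fun_prop
  set ν : Measure ℂ := volume.withDensity (fun w => (dens w : ℝ≥0∞)) with hν
  set X : ℂ → ℝ := fun w => a.im * Real.log ‖w‖ + b.im * Real.log ‖z - w‖ with hX
  have hpt : ∀ s w : ℂ, w ≠ 0 ∧ z - w ≠ 0 → dens w • cexp (s * X w) =
      ((‖w‖ : ℝ) : ℂ) ^ (A s - 2) * ((‖z - w‖ : ℝ) : ℂ) ^ (Bf s - 2) := by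
    intro s w hw
    have h1 : 0 < ‖w‖ := norm_pos_iff.2 hw.1
    have h2 : 0 < ‖z - w‖ := norm_pos_iff.2 hw.2
    have h3 : (dens w : ℝ) = ‖w‖ ^ (a.re - 2) * ‖z - w‖ ^ (b.re - 2) := by
      rw [hdens]
      exact Real.coe_toNNReal _ (mul_nonneg (Real.rpow_nonneg h1.le _) (Real.rpow_nonneg h2.le _))
    have h4 : dens w • cexp (s * X w) = ((dens w : ℝ) : ℂ) * cexp (s * X w) := by
      rw [NNReal.smul_def, Complex.real_smul]
    rw [h4, h3, Complex.ofReal_mul, Complex.ofReal_cpow h1.le, Complex.ofReal_cpow h2.le,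
      cpow_exp h1, cpow_exp h2, cpow_exp h1, cpow_exp h2, ← Complex.exp_add, ← Complex.exp_add,
      ← Complex.exp_add]
    congr 1
    simp only [hA, hB, hX]
    push_cast
    ring
  have hmgf : ∀ s : ℂ, complexMGF X ν s =
      ∫ w : ℂ, ((‖w‖ : ℝ) : ℂ) ^ (A s - 2) * ((‖z - w‖ : ℝ) : ℂ) ^ (Bf s - 2) := by
    intro s
    unfold complexMGF
    rw [hν, integral_withDensity_eq_integral_smul hdm]
    refine integral_congr_ae ?_
    filter_upwards [ae_ne z] with w hw
    exact hpt s w hw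
  -- the domain
  set D : Set ℝ := {t | 0 < a.re + t * a.im ∧ 0 < b.re + t * b.im ∧
    a.re + t * a.im + (b.re + t * b.im) < 2} with hD
  have hDopen : IsOpen D := by
    have h1 : IsOpen {t : ℝ | 0 < a.re + t * a.im} := isOpen_lt (by fun_prop) (by fun_prop)
    have h2 : IsOpen {t : ℝ | 0 < b.re + t * b.im} := isOpen_lt (by fun_prop) (by fun_prop)
    have h3 : IsOpen {t : ℝ | a.re + t * a.im + (b.re + t * b.im) < 2} :=
      isOpen_lt (by fun_prop) (by fun_prop)
    exact h1.inter (h2.inter h3)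
  have h0D : (0:ℝ) ∈ D := by
    simp only [hD, Set.mem_ofPred_eq, zero_mul, add_zero]
    exact ⟨ha, hb, hab⟩
  have hDsub : D ⊆ integrableExpSet X ν := by
    intro t ht
    have h1 := int_cc (A t) (Bf t) (by rw [hAre]; simpa using ht.1)
      (by rw [hBre]; simpa using ht.2.1) (by rw [hAre, hBre]; simpa using ht.2.2) z hz
    have h2 : Integrable (fun w => dens w • cexp ((t : ℂ) * X w)) := by
      refine h1.congr ?_
      filter_upwards [ae_ne z] with w hw
      exact (hpt t w hw).symm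
    have h3 : Integrable (fun w => cexp ((t : ℂ) * X w)) ν := by
      rw [hν]
      exact (integrable_withDensity_iff_integrable_smul hdm).2 h2
    have h4 := h3.re
    refine h4.congr (Eventually.of_forall fun w => ?_)
    simp only [RCLike.re_to_complex]
    rw [← Complex.ofReal_mul, ← Complex.ofReal_exp, Complex.ofReal_re]
  have hDint : D ⊆ interior (integrableExpSet X ν) := interior_maximal hDsub hDopen
  set U : Set ℂ := {s | s.re ∈ D} with hU
  have hUopen : IsOpen U := hDopen.preimage Complex.continuous_re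
  have hUconv : Convex ℝ U := by
    have h1 : Convex ℝ D := by
      intro x hx y hy p q hp hq hpq
      have hp' : p = 1 - q := by linarith
      subst hp'
      obtain ⟨x1, x2, x3⟩ := hx
      obtain ⟨y1, y2, y3⟩ := hy
      simp only [hD, Set.mem_ofPred_eq, smul_eq_mul]
      rcases hp.eq_or_lt with h | h
      · have hq1 : q = 1 := by linarith
        subst hq1
        simp only [sub_self, zero_mul, one_mul, zero_add]
        exact ⟨y1, y2, y3⟩
      · refine ⟨?_, ?_, ?_⟩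
        · nlinarith [mul_pos h x1, mul_nonneg hq y1.le]
        · nlinarith [mul_pos h x2, mul_nonneg hq y2.le]
        · nlinarith [mul_pos h (sub_pos.2 x3), mul_nonneg hq (sub_pos.2 y3).le]
    exact h1.linear_preimage Complex.reLm
  have hf : AnalyticOnNhd ℂ (complexMGF X ν) U := by
    intro s hs
    exact analyticAt_complexMGF (hDint hs)
  set H : ℂ → ℂ := fun s => Gcc (A s) * Gcc (Bf s) * (Gcc (A s + Bf s))⁻¹ *
    cexp (Real.log ‖z‖ * (A s + Bf s - 2)) with hH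
  have hg : AnalyticOnNhd ℂ H U := by
    refine DifferentiableOn.analyticOnNhd ?_ hUopen
    intro s hs
    refine DifferentiableAt.differentiableWithinAt ?_
    have hAd : DifferentiableAt ℂ A s := by rw [hA]; fun_prop
    have hBd : DifferentiableAt ℂ Bf s := by rw [hB]; fun_prop
    have h1 : DifferentiableAt ℂ (fun s => Gcc (A s)) s :=
      DifferentiableAt.comp (g := Gcc) (f := A) s (diff_Gcc (by rw [hAre]; exact hs.1)) hAd
    have h2 : DifferentiableAt ℂ (fun s => Gcc (Bf s)) s :=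
      DifferentiableAt.comp (g := Gcc) (f := Bf) s (diff_Gcc (by rw [hBre]; exact hs.2.1)) hBd
    have h3 : DifferentiableAt ℂ (fun s => (Gcc (A s + Bf s))⁻¹) s :=
      DifferentiableAt.comp (g := fun s => (Gcc s)⁻¹) (f := fun s => A s + Bf s) s
        (diff_Gcc_inv (by rw [Complex.add_re, hAre, hBre]; exact hs.2.2)) (hAd.add hBd)
    have h4 : DifferentiableAt ℂ (fun s => cexp (Real.log ‖z‖ * (A s + Bf s - 2))) s := by
      fun_prop
    exact ((h1.mul h2).mul h3).mul h4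
  have h0U : (0:ℂ) ∈ U := by
    simp only [hU, Set.mem_ofPred_eq, Complex.zero_re]
    exact h0D
  have hreal : ∀ t : ℝ, t ∈ D → complexMGF X ν t = H t := by
    intro t ht
    have hAt : A t = ((a.re + t * a.im : ℝ) : ℂ) := by rw [hA]; push_cast; rfl
    have hBt : Bf t = ((b.re + t * b.im : ℝ) : ℂ) := by rw [hB]; push_cast; rfl
    rw [hmgf]
    simp only [hH]
    rw [hAt, hBt, real_cc _ _ ht.1 ht.2.1 ht.2.2 z hz, div_eq_mul_inv, cpow_exp hr]
  have hfreq : ∃ᶠ s in 𝓝[≠] (0:ℂ), complexMGF X ν s = H s := by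
    have h1 : Tendsto (fun t : ℝ => (t : ℂ)) (𝓝[≠] (0:ℝ)) (𝓝[≠] (0:ℂ)) := by
      refine tendsto_nhdsWithin_of_tendsto_nhds_of_eventually_within _ ?_ ?_
      · have : Tendsto (fun t : ℝ => (t : ℂ)) (𝓝 (0:ℝ)) (𝓝 ((0:ℝ):ℂ)) :=
          Complex.continuous_ofReal.tendsto 0
        rw [Complex.ofReal_zero] at this
        exact this.mono_left nhdsWithin_le_nhds
      · filter_upwards [self_mem_nhdsWithin] with t ht
        simpa using ht
    refine h1.frequently ?_
    refine Eventually.frequently ?_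
    have h2 : ∀ᶠ t : ℝ in 𝓝[≠] 0, t ∈ D :=
      nhdsWithin_le_nhds (hDopen.mem_nhds h0D)
    filter_upwards [h2] with t ht
    exact hreal t ht
  have hEq := hf.eqOn_of_preconnected_of_frequently_eq hg hUconv.isPreconnected h0U hfreq
  have hI : (I : ℂ) ∈ U := by
    simp only [hU, Set.mem_ofPred_eq, Complex.I_re]
    exact h0D
  have hfin := hEq hI
  rw [hmgf] at hfin
  have hAI : A I = a := by
    simp only [hA]
    rw [mul_comm]
    exact Complex.re_add_im a
  have hBI : Bf I = b := by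
    simp only [hB]
    rw [mul_comm]
    exact Complex.re_add_im b
  simp only [hH] at hfin
  rw [hAI, hBI] at hfin
  rw [hfin, div_eq_mul_inv, cpow_exp hr]

end Helper72.BB.P
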