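import Pool.Agent.Helper85.BP.Defs

/-!
# MP_3dd6d4_an, all-p extension, module K2: pointwise inequality for the transform of a weight
-/

set_option autoImplicit false

open MeasureTheory Complex FourierTransform Filter Topology
open scoped ENNReal NNReal ComplexConjugate

noncomputable section

namespace Helper85.BP.P

open Helper72.BA Helper85.BP

/-- the transform of `(1+β²τ²) W` -/
private def Rw (β : ℝ) (W : ℝ → ℝ) (s : ℝ) : ℝ :=
  ∫ τ, (1 + β ^ 2 * τ ^ 2) * W τ * Real.cos (β * τ * s)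

private lemma int_mul {β : ℝ} {W : ℝ → ℝ} (hW : Adm β W) (φ : ℝ → ℝ) (hφ : Continuous φ) (C : ℝ)
    (h : ∀ τ, |φ τ| ≤ C * (1 + β ^ 2 * τ ^ 2)) : Integrable (fun τ => W τ * φ τ) := by
  refine Integrable.mono' (hW.int.const_mul C) (hW.cont.mul hφ).aestronglyMeasurable ?_
  refine Eventually.of_forall fun τ => ?_
  rw [Real.norm_eq_abs, abs_mul, abs_of_nonneg (hW.nonneg τ)]
  have := mul_le_mul_of_nonneg_left (h τ) (hW.nonneg τ)
  linarith

private lemma abs_le_quad (a : ℝ) : |a| ≤ 1 + a ^ 2 := by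
  rcases abs_cases a with h | h <;> nlinarith [sq_nonneg (a - 1), sq_nonneg (a + 1), sq_nonneg a]

private lemma int_A {β : ℝ} {W : ℝ → ℝ} (hW : Adm β W) (r : ℝ) :
    Integrable (fun τ => W τ * (Real.cos (β * τ * r) - β * τ * Real.sin (β * τ * r))) := by
  refine int_mul hW _ (by fun_prop) 2 fun τ => ?_
  have h1 := Real.abs_cos_le_one (β * τ * r)
  have h2 := Real.abs_sin_le_one (β * τ * r)
  have h3 := abs_le_quad (β * τ)
  calc |Real.cos (β * τ * r) - β * τ * Real.sin (β * τ * r)|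
      ≤ |Real.cos (β * τ * r)| + |β * τ * Real.sin (β * τ * r)| := abs_sub _ _
    _ = |Real.cos (β * τ * r)| + |β * τ| * |Real.sin (β * τ * r)| := by rw [abs_mul (β * τ)]
    _ ≤ 1 + |β * τ| * 1 := by gcongr
    _ ≤ 2 * (1 + β ^ 2 * τ ^ 2) := by nlinarith [sq_nonneg (β * τ)]

private lemma int_R {β : ℝ} {W : ℝ → ℝ} (hW : Adm β W) (r : ℝ) :
    Integrable (fun τ => (1 + β ^ 2 * τ ^ 2) * W τ * Real.cos (β * τ * r)) := by
  refine (hW.int.bdd_mul (c := 1) (f := fun τ => Real.cos (β * τ * r))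
    (by fun_prop) (Eventually.of_forall fun τ => ?_)).congr (Eventually.of_forall fun τ => ?_)
  · rw [Real.norm_eq_abs]
    exact Real.abs_cos_le_one _
  · simp only
    ring

private lemma hasDeriv_A {β : ℝ} {W : ℝ → ℝ} (hW : Adm β W) (r : ℝ) :
    HasDerivAt (Aw β W) (Aw β W r - Rw β W r) r := by
  have key := hasDerivAt_integral_of_dominated_loc_of_deriv_le (μ := volume) (𝕜 := ℝ)
    (F := fun r τ => W τ * (Real.cos (β * τ * r) - β * τ * Real.sin (β * τ * r)))
    (F' := fun r τ => W τ * (-Real.sin (β * τ * r) * (β * τ) -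
      β * τ * (Real.cos (β * τ * r) * (β * τ))))
    (x₀ := r) (s := Set.univ) (bound := fun τ => 2 * ((1 + β ^ 2 * τ ^ 2) * W τ))
    Filter.univ_mem
    (Eventually.of_forall fun x => (hW.cont.mul (by fun_prop)).aestronglyMeasurable)
    (int_A hW r)
    (hW.cont.mul (by fun_prop)).aestronglyMeasurable
    (Eventually.of_forall fun τ x _ => by
      rw [Real.norm_eq_abs, abs_mul, abs_of_nonneg (hW.nonneg τ)]
      have h1 := Real.abs_cos_le_one (β * τ * x)
      have h2 := Real.abs_sin_le_one (β * τ * x)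
      have h3 := abs_le_quad (β * τ)
      have h4 : |-Real.sin (β * τ * x) * (β * τ) - β * τ * (Real.cos (β * τ * x) * (β * τ))| ≤
          2 * (1 + β ^ 2 * τ ^ 2) := by
        calc |-Real.sin (β * τ * x) * (β * τ) - β * τ * (Real.cos (β * τ * x) * (β * τ))|
            ≤ |-Real.sin (β * τ * x) * (β * τ)| + |β * τ * (Real.cos (β * τ * x) * (β * τ))| :=
              abs_sub _ _
          _ = |Real.sin (β * τ * x)| * |β * τ| + |Real.cos (β * τ * x)| * (β * τ) ^ 2 := by
              rw [abs_mul, abs_neg, show β * τ * (Real.cos (β * τ * x) * (β * τ)) =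
                Real.cos (β * τ * x) * (β * τ) ^ 2 by ring, abs_mul (Real.cos _),
                abs_of_nonneg (sq_nonneg (β * τ))]
          _ ≤ 1 * |β * τ| + 1 * (β * τ) ^ 2 := by gcongr
          _ ≤ 2 * (1 + β ^ 2 * τ ^ 2) := by nlinarith [sq_nonneg (β * τ)]
      have := mul_le_mul_of_nonneg_left h4 (hW.nonneg τ)
      linarith)
    (hW.int.const_mul 2)
    (Eventually.of_forall fun τ x _ => by
      have h1 : HasDerivAt (fun x : ℝ => β * τ * x) (β * τ) x := by
        simpa using (hasDerivAt_id x).const_mul (β * τ)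
      exact ((h1.cos).sub ((h1.sin).const_mul (β * τ))).const_mul (W τ))
  have h2 := key.2
  have h3 : (∫ τ, W τ * (-Real.sin (β * τ * r) * (β * τ) -
      β * τ * (Real.cos (β * τ * r) * (β * τ)))) = Aw β W r - Rw β W r := by
    rw [Aw, Rw, ← integral_sub (int_A hW r) (int_R hW r)]
    congr 1
    funext τ
    ring
  rw [h3] at h2
  exact h2

private lemma Rw_neg (β : ℝ) (W : ℝ → ℝ) (r : ℝ) : Rw β W (-r) = Rw β W r := by
  unfold Rw
  congr 1
  funext τ
  rw [show β * τ * -r = -(β * τ * r) by ring, Real.cos_neg]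

private lemma Wh_eq {β : ℝ} {W : ℝ → ℝ} (hW : Adm β W) (s : ℝ) :
    Wh β W s = (Aw β W s + Aw β W (-s)) / 2 := by
  have h1 : Aw β W s + Aw β W (-s) = ∫ τ, 2 * (W τ * Real.cos (β * τ * s)) := by
    rw [Aw, Aw, ← integral_add (int_A hW s) (int_A hW (-s))]
    congr 1
    funext τ
    rw [show β * τ * -s = -(β * τ * s) by ring, Real.cos_neg, Real.sin_neg]
    ring
  rw [h1, integral_const_mul, Wh]
  ring

private lemma Aw_bound {β : ℝ} {W : ℝ → ℝ} (hW : Adm β W) (r : ℝ) :
    |Aw β W r| ≤ ∫ τ, 2 * ((1 + β ^ 2 * τ ^ 2) * W τ) := by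
  rw [← Real.norm_eq_abs]
  refine (norm_integral_le_integral_norm _).trans ?_
  refine integral_mono (int_A hW r).norm (hW.int.const_mul 2) fun τ => ?_
  simp only
  rw [Real.norm_eq_abs, abs_mul, abs_of_nonneg (hW.nonneg τ)]
  have h1 := Real.abs_cos_le_one (β * τ * r)
  have h2 := Real.abs_sin_le_one (β * τ * r)
  have h3 := abs_le_quad (β * τ)
  have h4 : |Real.cos (β * τ * r) - β * τ * Real.sin (β * τ * r)| ≤ 2 * (1 + β ^ 2 * τ ^ 2) := by
    calc |Real.cos (β * τ * r) - β * τ * Real.sin (β * τ * r)|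
        ≤ |Real.cos (β * τ * r)| + |β * τ * Real.sin (β * τ * r)| := abs_sub _ _
      _ = |Real.cos (β * τ * r)| + |β * τ| * |Real.sin (β * τ * r)| := by rw [abs_mul (β * τ)]
      _ ≤ 1 + |β * τ| * 1 := by gcongr
      _ ≤ 2 * (1 + β ^ 2 * τ ^ 2) := by nlinarith [sq_nonneg (β * τ)]
  have := mul_le_mul_of_nonneg_left h4 (hW.nonneg τ)
  linarith

private lemma hasDeriv_a {β : ℝ} {W : ℝ → ℝ} (hW : Adm β W) (x : ℝ) :
    HasDerivAt (fun x => Real.exp (-x) * Aw β W x) (-(Real.exp (-x) * Rw β W x)) x := by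
  have h1 : HasDerivAt (fun x : ℝ => Real.exp (-x)) (Real.exp (-x) * (-1)) x :=
    (hasDerivAt_neg x).exp
  refine (h1.mul (hasDeriv_A hW x)).congr_deriv ?_
  ring

private lemma hasDeriv_b {β : ℝ} {W : ℝ → ℝ} (hW : Adm β W) (x : ℝ) :
    HasDerivAt (fun x => Real.exp x * Aw β W (-x)) (Real.exp x * Rw β W x) x := by
  have h0 : HasDerivAt (fun x => Aw β W (-x)) ((Aw β W (-x) - Rw β W (-x)) * (-1)) x :=
    (hasDeriv_A hW (-x)).comp x (hasDerivAt_neg x)
  refine ((Real.hasDerivAt_exp x).mul h0).congr_deriv ?_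
  rw [Rw_neg]
  ring

private lemma Aw_nonneg {β : ℝ} {W : ℝ → ℝ} (hW : Adm β W) (r : ℝ) : 0 ≤ Aw β W r := by
  have hanti : Antitone (fun x => Real.exp (-x) * Aw β W x) := by
    refine antitone_of_deriv_nonpos (fun x => (hasDeriv_a hW x).differentiableAt) fun x => ?_
    rw [(hasDeriv_a hW x).deriv]
    have := mul_nonneg (Real.exp_pos (-x)).le (hW.pd x)
    unfold Rw
    linarith
  have hlim : Tendsto (fun x => Real.exp (-x) * Aw β W x) atTop (𝓝 0) := by
    set C := ∫ τ, 2 * ((1 + β ^ 2 * τ ^ 2) * W τ) with hC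
    have h1 : Tendsto (fun x => Real.exp (-x) * C) atTop (𝓝 0) := by
      have := (Real.tendsto_exp_neg_atTop_nhds_zero).mul_const C
      simpa using this
    refine squeeze_zero_norm (fun x => ?_) h1
    rw [Real.norm_eq_abs, abs_mul, abs_of_pos (Real.exp_pos _)]
    exact mul_le_mul_of_nonneg_left (Aw_bound hW x) (Real.exp_pos _).le
  have h1 : 0 ≤ Real.exp (-r) * Aw β W r :=
    le_of_tendsto hlim ((eventually_ge_atTop r).mono fun x hx => hanti hx)
  exact nonneg_of_mul_nonneg_right h1 (Real.exp_pos _)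

theorem Wh_ptw (β : ℝ) (hβ : 0 < β) (W : ℝ → ℝ) (hW : Adm β W) :
    (∀ s, 0 ≤ Wh β W s) ∧ (∀ r, 0 ≤ Aw β W r) ∧
    (∀ r t, Wh β W (r + t) ≤ 1 / 2 * Aw β W r * Real.exp t + 1 / 2 * Aw β W (-r) * Real.exp (-t)) ∧
    Continuous (Wh β W) ∧ Continuous (Aw β W) ∧ (∃ C, ∀ s, Wh β W s ≤ C) ∧
    (∃ C, ∀ s, Aw β W s ≤ C) := by
  have hAc : Continuous (Aw β W) :=
    continuous_iff_continuousAt.2 fun x => (hasDeriv_A hW x).continuousAt
  have hWc : Continuous (Wh β W) := by
    have : Wh β W = fun s => (Aw β W s + Aw β W (-s)) / 2 := funext fun s => Wh_eq hW s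
    rw [this]
    fun_prop
  have hR : ∀ x, 0 ≤ Rw β W x := fun x => hW.pd x
  refine ⟨fun s => ?_, Aw_nonneg hW, fun r t => ?_, hWc, hAc,
    ⟨∫ τ, 2 * ((1 + β ^ 2 * τ ^ 2) * W τ), fun s => ?_⟩,
    ⟨∫ τ, 2 * ((1 + β ^ 2 * τ ^ 2) * W τ), fun s => (le_abs_self _).trans (Aw_bound hW s)⟩⟩
  · rw [Wh_eq hW]
    have := Aw_nonneg hW s
    have := Aw_nonneg hW (-s)
    linarith
  · obtain ⟨s, hs⟩ : ∃ s, s = r + t := ⟨_, rfl⟩
    rw [← hs]
    set Φ : ℝ → ℝ := fun x => Real.exp s * (Real.exp (-x) * Aw β W x) +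
      Real.exp (-s) * (Real.exp x * Aw β W (-x)) with hΦ
    have hd : ∀ x, HasDerivAt Φ (Rw β W x * (Real.exp (x - s) - Real.exp (s - x))) x := by
      intro x
      refine (((hasDeriv_a hW x).const_mul (Real.exp s)).add
        ((hasDeriv_b hW x).const_mul (Real.exp (-s)))).congr_deriv ?_
      rw [show x - s = -s + x by ring, show s - x = s + -x by ring, Real.exp_add, Real.exp_add]
      ring
    have hle : Φ s ≤ Φ r := by
      rcases le_total r s with h | h
      · have hanti : AntitoneOn Φ (Set.Iic s) := by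
          refine antitoneOn_of_deriv_nonpos (convex_Iic s)
            (fun x _ => (hd x).continuousAt.continuousWithinAt)
            (fun x _ => (hd x).differentiableAt.differentiableWithinAt) fun x hx => ?_
          rw [interior_Iic, Set.mem_Iio] at hx
          rw [(hd x).deriv]
          refine mul_nonpos_of_nonneg_of_nonpos (hR x) ?_
          have : Real.exp (x - s) ≤ Real.exp (s - x) := Real.exp_le_exp.2 (by linarith)
          linarith
        exact hanti h (Set.mem_Iic.2 le_rfl) h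
      · have hmono : MonotoneOn Φ (Set.Ici s) := by
          refine monotoneOn_of_deriv_nonneg (convex_Ici s)
            (fun x _ => (hd x).continuousAt.continuousWithinAt)
            (fun x _ => (hd x).differentiableAt.differentiableWithinAt) fun x hx => ?_
          rw [interior_Ici, Set.mem_Ioi] at hx
          rw [(hd x).deriv]
          refine mul_nonneg (hR x) ?_
          have : Real.exp (s - x) ≤ Real.exp (x - s) := Real.exp_le_exp.2 (by linarith)
          linarith
        exact hmono (Set.mem_Ici.2 le_rfl) h h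
    have h1 : Φ s = 2 * Wh β W s := by
      rw [Wh_eq hW, hΦ]
      simp only
      rw [← mul_assoc, ← mul_assoc, ← Real.exp_add, ← Real.exp_add]
      simp
      ring
    have h2 : Φ r = Aw β W r * Real.exp t + Aw β W (-r) * Real.exp (-t) := by
      rw [hΦ]
      simp only
      rw [← mul_assoc, ← mul_assoc, ← Real.exp_add, ← Real.exp_add,
        show s + -r = t by rw [hs]; ring, show -s + r = -t by rw [hs]; ring]
      ring
    linarith
  · rw [Wh_eq hW]
    have h1 := (le_abs_self _).trans (Aw_bound hW s)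
    have h2 := (le_abs_self _).trans (Aw_bound hW (-s))
    linarith

end Helper85.BP.P
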