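import Pool.Agent.Helper28.BP_K2

/-!
# MP_3dd6d4_an, all-p extension, module K4: AM-GM under the integral and symmetrisation
-/

set_option autoImplicit false

open MeasureTheory Complex FourierTransform Filter Topology
open scoped ENNReal NNReal ComplexConjugate

noncomputable section

namespace Helper85.BP.P

open Helper72.BA Helper85.BP

/-- arithmetic and geometric mean, squares -/
private lemma amgm {k : ℕ} (hk : 0 < k) (a : Fin k → ℝ) (ha : ∀ i, 0 < a i) :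
    ∏ i, a i ^ 2 ≤ 1 / (k:ℝ) * ∑ i, a i ^ (2 * k) := by
  have hk' : (0:ℝ) < k := by exact_mod_cast hk
  have h := Real.geom_mean_le_arith_mean_weighted Finset.univ (fun _ : Fin k => 1 / (k:ℝ))
    (fun i => a i ^ (2 * k)) (fun i _ => by positivity)
    (by rw [Finset.sum_const, Finset.card_univ, Fintype.card_fin, nsmul_eq_mul]; field_simp)
    (fun i _ => (pow_pos (ha i) _).le)
  rw [Finset.mul_sum]
  refine le_trans (le_of_eq ?_) h
  refine Finset.prod_congr rfl fun i _ => ?_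
  rw [← Real.rpow_natCast (a i) (2 * k), ← Real.rpow_mul (ha i).le]
  rw [show ((2 * k : ℕ) : ℝ) * (1 / (k:ℝ)) = ((2:ℕ) : ℝ) by push_cast; field_simp,
    Real.rpow_natCast]

/-- the pointwise inequality -/
private lemma ptw_real {k : ℕ} (hk : 0 < k) {β : ℝ} (hβ : 0 < β) {W : ℝ → ℝ} (hW : Adm β W)
    (a b : Fin k → ℝ) (ha : ∀ i, 0 < a i) (hb : ∀ i, 0 < b i) (r : ℝ) :
    (∏ i, (a i * b i)) * Wh β W (r + ∑ i, (Real.log (a i) - Real.log (b i))) ≤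
      1 / (2 * (k:ℝ)) * ∑ i, (Aw β W r * a i ^ (2 * k) + Aw β W (-r) * b i ^ (2 * k)) := by
  obtain ⟨-, hA, hle, -⟩ := Wh_ptw β hβ W hW
  set t := ∑ i, (Real.log (a i) - Real.log (b i)) with ht
  have hk' : (0:ℝ) < k := by exact_mod_cast hk
  have hP : 0 < ∏ i, (a i * b i) := Finset.prod_pos fun i _ => mul_pos (ha i) (hb i)
  have he1 : (∏ i, (a i * b i)) * Real.exp t = ∏ i, a i ^ 2 := by
    rw [ht, Real.exp_sum, ← Finset.prod_mul_distrib]
    refine Finset.prod_congr rfl fun i _ => ?_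
    rw [Real.exp_sub, Real.exp_log (ha i), Real.exp_log (hb i)]
    have := (hb i).ne'
    field_simp
  have he2 : (∏ i, (a i * b i)) * Real.exp (-t) = ∏ i, b i ^ 2 := by
    rw [ht, ← Finset.sum_neg_distrib, Real.exp_sum, ← Finset.prod_mul_distrib]
    refine Finset.prod_congr rfl fun i _ => ?_
    rw [neg_sub, Real.exp_sub, Real.exp_log (ha i), Real.exp_log (hb i)]
    have := (ha i).ne'
    field_simp
  calc (∏ i, (a i * b i)) * Wh β W (r + t)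
      ≤ (∏ i, (a i * b i)) *
        (1 / 2 * Aw β W r * Real.exp t + 1 / 2 * Aw β W (-r) * Real.exp (-t)) :=
        mul_le_mul_of_nonneg_left (hle r t) hP.le
    _ = 1 / 2 * Aw β W r * ((∏ i, (a i * b i)) * Real.exp t) +
        1 / 2 * Aw β W (-r) * ((∏ i, (a i * b i)) * Real.exp (-t)) := by ring
    _ = 1 / 2 * Aw β W r * (∏ i, a i ^ 2) + 1 / 2 * Aw β W (-r) * (∏ i, b i ^ 2) := by
        rw [he1, he2]
    _ ≤ 1 / 2 * Aw β W r * (1 / (k:ℝ) * ∑ i, a i ^ (2 * k)) +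
        1 / 2 * Aw β W (-r) * (1 / (k:ℝ) * ∑ i, b i ^ (2 * k)) := by
        have h1 := amgm hk a ha
        have h2 := amgm hk b hb
        have h3 := hA r
        have h4 := hA (-r)
        gcongr
    _ = 1 / (2 * (k:ℝ)) * ∑ i, (Aw β W r * a i ^ (2 * k) + Aw β W (-r) * b i ^ (2 * k)) := by
        rw [Finset.sum_add_distrib, ← Finset.mul_sum, ← Finset.mul_sum]
        field_simp

/-- `F(ξ) = |ξ|^{-1/k} Ψ(ξ)` -/
private def Fk (k : ℕ) (Ψ : ℂ → ℝ) (ξ : ℂ) : ℝ := ‖ξ‖ ^ (-(1 / (k:ℝ))) * Ψ ξ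

private lemma Fk_pos {k : ℕ} {Ψ : ℂ → ℝ} (hΨ0 : ∀ ξ, 0 < Ψ ξ) {ξ : ℂ} (hξ : 0 < ‖ξ‖) :
    0 < Fk k Ψ ξ := mul_pos (Real.rpow_pos_of_pos hξ _) (hΨ0 ξ)

private lemma Fk_pow {k : ℕ} (hk : 0 < k) (Ψ : ℂ → ℝ) {ξ : ℂ} (hξ : 0 < ‖ξ‖) :
    Fk k Ψ ξ ^ (2 * k) = (‖ξ‖ ^ 2)⁻¹ * Ψ ξ ^ (2 * k) := by
  have hk' : (k:ℝ) ≠ 0 := by exact_mod_cast hk.ne'
  rw [Fk, mul_pow]
  congr 1
  rw [← Real.rpow_natCast (‖ξ‖ ^ (-(1 / (k:ℝ)))) (2 * k), ← Real.rpow_mul hξ.le,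
    show (-(1 / (k:ℝ))) * ((2 * k : ℕ) : ℝ) = -((2:ℕ) : ℝ) by push_cast; field_simp,
    Real.rpow_neg hξ.le, Real.rpow_natCast]

private lemma log_Fk {k : ℕ} {Ψ : ℂ → ℝ} (hΨ0 : ∀ ξ, 0 < Ψ ξ) {ξ : ℂ} (hξ : 0 < ‖ξ‖) :
    Real.log (Ψ ξ) = Real.log (Fk k Ψ ξ) + 1 / (k:ℝ) * Real.log ‖ξ‖ := by
  rw [Fk, Real.log_mul (Real.rpow_pos_of_pos hξ _).ne' (hΨ0 ξ).ne', Real.log_rpow hξ]
  ring

private lemma vK_eq {k : ℕ} {c1 c2 : ℝ} {Ψ : ℂ → ℝ} {ξ : ℂ} (hξ : 0 < ‖ξ‖) (h : ξ ∈ Ann c1 c2) :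
    vK c1 c2 Ψ ξ = om k ξ * ENNReal.ofReal (Fk k Ψ ξ) := by
  rw [vK, Set.indicator_of_mem h, om, ← ENNReal.ofReal_mul (Real.rpow_nonneg hξ.le _), Fk,
    ← mul_assoc, ← Real.rpow_add hξ, show 1 / (k:ℝ) - 2 + -(1 / (k:ℝ)) = -((2:ℕ) : ℝ) by
      push_cast; ring, Real.rpow_neg hξ.le, Real.rpow_natCast]

section

variable (m : ℕ) (β : ℝ) (W : ℝ → ℝ) (c1 c2 : ℝ) (Ψ : ℂ → ℝ) (δ : ℝ)

/-- the symmetric weight -/
private def Om (v : Fin (m + 1) → ℂ × ℂ) : ℝ≥0∞ :=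
  (∏ i, (om (m + 1) (v i).1 * om (m + 1) (v i).2)) *
    ENNReal.ofReal (gd δ (∑ i, ((v i).1 - (v i).2)))

/-- the annulus function -/
private def gA (ξ : ℂ) : ℝ≥0∞ :=
  (Ann c1 c2).indicator (fun ξ => ENNReal.ofReal ((‖ξ‖ ^ 2)⁻¹ * Ψ ξ ^ (2 * (m + 1)))) ξ

/-- the permutation invariant integrands -/
private def T1 (i : Fin (m + 1)) (v : Fin (m + 1) → ℂ × ℂ) : ℝ≥0∞ :=
  Om m δ v * ENNReal.ofReal (Aw β W (rr (m + 1) v)) * gA m c1 c2 Ψ (v i).1

private def T2 (i : Fin (m + 1)) (v : Fin (m + 1) → ℂ × ℂ) : ℝ≥0∞ :=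
  Om m δ v * ENNReal.ofReal (Aw β W (-rr (m + 1) v)) * gA m c1 c2 Ψ (v i).2

private lemma gd_neg (z : ℂ) : gd δ (-z) = gd δ z := by
  rw [gd, gd, norm_neg]

private lemma T2_eq (i : Fin (m + 1)) :
    ∫⁻ v, T2 m β W c1 c2 Ψ δ i v = ∫⁻ v, T1 m β W c1 c2 Ψ δ i v := by
  have hmp : MeasurePreserving (fun (v : Fin (m + 1) → ℂ × ℂ) i => (v i).swap) volume volume := by
    have h := measurePreserving_pi (fun _ : Fin (m + 1) => (volume : Measure (ℂ × ℂ)))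
      (fun _ : Fin (m + 1) => (volume : Measure (ℂ × ℂ))) (f := fun _ => Prod.swap)
      (fun _ => Measure.measurePreserving_swap)
    exact h
  have hemb : MeasurableEmbedding (fun (v : Fin (m + 1) → ℂ × ℂ) i => (v i).swap) :=
    (MeasurableEquiv.piCongrRight
      (fun _ : Fin (m + 1) => (MeasurableEquiv.prodComm : ℂ × ℂ ≃ᵐ ℂ × ℂ))).measurableEmbedding
  rw [← hmp.lintegral_comp_emb hemb]
  refine lintegral_congr fun v => ?_
  have hOm : Om m δ (fun i => (v i).swap) = Om m δ v := by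
    simp only [Om, Prod.fst_swap, Prod.snd_swap]
    have h1 : ∑ i, ((v i).2 - (v i).1) = -∑ i, ((v i).1 - (v i).2) := by
      rw [← Finset.sum_neg_distrib]
      exact Finset.sum_congr rfl fun i _ => by ring
    rw [h1, gd_neg]
    congr 1
    exact Finset.prod_congr rfl fun i _ => mul_comm _ _
  have hrr : rr (m + 1) (fun i => (v i).swap) = -rr (m + 1) v := by
    simp only [rr, Prod.fst_swap, Prod.snd_swap]
    rw [← mul_neg, ← Finset.sum_neg_distrib]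
    congr 1
    exact Finset.sum_congr rfl fun i _ => by ring
  rw [T2, hOm, hrr, neg_neg, T1]
  simp only [Prod.snd_swap]

private lemma T1_eq (i : Fin (m + 1)) :
    ∫⁻ v, T1 m β W c1 c2 Ψ δ i v = ∫⁻ v, T1 m β W c1 c2 Ψ δ 0 v := by
  let e : Equiv.Perm (Fin (m + 1)) := Equiv.swap 0 i
  have hmp := volume_measurePreserving_piCongrLeft (fun _ : Fin (m + 1) => ℂ × ℂ) e
  rw [← hmp.lintegral_comp_emb (MeasurableEquiv.measurableEmbedding _)]
  refine lintegral_congr fun v => ?_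
  have hv : ∀ j, (MeasurableEquiv.piCongrLeft (fun _ : Fin (m + 1) => ℂ × ℂ) e) v (e j) = v j :=
    fun j => MeasurableEquiv.piCongrLeft_apply_apply (β := fun _ : Fin (m + 1) => ℂ × ℂ) e v j
  set w := (MeasurableEquiv.piCongrLeft (fun _ : Fin (m + 1) => ℂ × ℂ) e) v with hw
  have hsum : ∀ f : ℂ × ℂ → ℂ, ∑ j, f (w j) = ∑ j, f (v j) := by
    intro f
    rw [← Equiv.sum_comp e]
    exact Finset.sum_congr rfl fun j _ => by rw [hv]
  have hsum' : ∀ f : ℂ × ℂ → ℝ, ∑ j, f (w j) = ∑ j, f (v j) := by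
    intro f
    rw [← Equiv.sum_comp e]
    exact Finset.sum_congr rfl fun j _ => by rw [hv]
  have hprod : ∀ f : ℂ × ℂ → ℝ≥0∞, ∏ j, f (w j) = ∏ j, f (v j) := by
    intro f
    rw [← Equiv.prod_comp e]
    exact Finset.prod_congr rfl fun j _ => by rw [hv]
  have hOm : Om m δ w = Om m δ v := by
    rw [Om, Om, hprod (fun x => om (m + 1) x.1 * om (m + 1) x.2), hsum (fun x => x.1 - x.2)]
  have hrr : rr (m + 1) w = rr (m + 1) v := by
    rw [rr, rr, hsum' (fun x => Real.log ‖x.1‖ - Real.log ‖x.2‖)]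
  have hi : w i = v 0 := by
    have := hv 0
    rwa [show e 0 = i from Equiv.swap_apply_left 0 i] at this
  rw [T1, T1, hOm, hrr, hi]

end

theorem symm_bound (m : ℕ) (hm : 1 ≤ m) (β : ℝ) (hβ : 0 < β) (W : ℝ → ℝ) (hW : Adm β W)
    (c1 c2 : ℝ) (hc1 : 0 < c1) (Ψ : ℂ → ℝ) (hΨ : Measurable Ψ) (hΨ0 : ∀ ξ, 0 < Ψ ξ)
    (δ : ℝ) (hδ : 0 < δ) :
    ∫⁻ v : Fin (m + 1) → ℂ × ℂ, (∏ i, (vK c1 c2 Ψ (v i).1 * vK c1 c2 Ψ (v i).2)) *
        ENNReal.ofReal (Wh β W (∑ i, (Real.log (Ψ (v i).1) - Real.log (Ψ (v i).2)))) *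
        ENNReal.ofReal (gd δ (∑ i, ((v i).1 - (v i).2))) ≤
    ∫⁻ v : Fin (m + 1) → ℂ × ℂ, (∏ i, (om (m + 1) (v i).1 * om (m + 1) (v i).2)) *
        ENNReal.ofReal (Aw β W (rr (m + 1) v)) * ENNReal.ofReal (gd δ (∑ i, ((v i).1 - (v i).2))) *
        (Ann c1 c2).indicator (fun ξ => ENNReal.ofReal ((‖ξ‖ ^ 2)⁻¹ * Ψ ξ ^ (2 * (m + 1)))) (v 0).1 := by
  obtain ⟨-, hA, -, -, hAc, -, -⟩ := Wh_ptw β hβ W hW
  set c : ℝ≥0∞ := ENNReal.ofReal (1 / (2 * ((m + 1 : ℕ) : ℝ))) with hc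
  have hRHS : (∫⁻ v : Fin (m + 1) → ℂ × ℂ, (∏ i, (om (m + 1) (v i).1 * om (m + 1) (v i).2)) *
        ENNReal.ofReal (Aw β W (rr (m + 1) v)) * ENNReal.ofReal (gd δ (∑ i, ((v i).1 - (v i).2))) *
        (Ann c1 c2).indicator (fun ξ => ENNReal.ofReal ((‖ξ‖ ^ 2)⁻¹ * Ψ ξ ^ (2 * (m + 1)))) (v 0).1) =
      ∫⁻ v, T1 m β W c1 c2 Ψ δ 0 v := by
    refine lintegral_congr fun v => ?_
    rw [T1, Om, gA]
    ring
  rw [hRHS]
  have hpt : ∀ v : Fin (m + 1) → ℂ × ℂ, (∏ i, (vK c1 c2 Ψ (v i).1 * vK c1 c2 Ψ (v i).2)) *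
        ENNReal.ofReal (Wh β W (∑ i, (Real.log (Ψ (v i).1) - Real.log (Ψ (v i).2)))) *
        ENNReal.ofReal (gd δ (∑ i, ((v i).1 - (v i).2))) ≤
      c * ∑ i, (T1 m β W c1 c2 Ψ δ i v + T2 m β W c1 c2 Ψ δ i v) := by
    intro v
    by_cases hv : ∀ i, (v i).1 ∈ Ann c1 c2 ∧ (v i).2 ∈ Ann c1 c2
    · have hp1 : ∀ i, 0 < ‖(v i).1‖ := fun i => hc1.trans_le (hv i).1.1
      have hp2 : ∀ i, 0 < ‖(v i).2‖ := fun i => hc1.trans_le (hv i).2.1
      have hF1 : ∀ i, 0 < Fk (m + 1) Ψ (v i).1 := fun i => Fk_pos hΨ0 (hp1 i)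
      have hF2 : ∀ i, 0 < Fk (m + 1) Ψ (v i).2 := fun i => Fk_pos hΨ0 (hp2 i)
      have hprod : (∏ i, (vK c1 c2 Ψ (v i).1 * vK c1 c2 Ψ (v i).2)) =
          (∏ i, (om (m + 1) (v i).1 * om (m + 1) (v i).2)) *
            ENNReal.ofReal (∏ i, (Fk (m + 1) Ψ (v i).1 * Fk (m + 1) Ψ (v i).2)) := by
        rw [ENNReal.ofReal_prod_of_nonneg (fun i _ => (mul_pos (hF1 i) (hF2 i)).le),
          ← Finset.prod_mul_distrib]
        refine Finset.prod_congr rfl fun i _ => ?_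
        rw [vK_eq (k := m + 1) (hp1 i) (hv i).1, vK_eq (k := m + 1) (hp2 i) (hv i).2,
          ENNReal.ofReal_mul (hF1 i).le]
        ring
      have hlog : ∑ i, (Real.log (Ψ (v i).1) - Real.log (Ψ (v i).2)) = rr (m + 1) v +
          ∑ i, (Real.log (Fk (m + 1) Ψ (v i).1) - Real.log (Fk (m + 1) Ψ (v i).2)) := by
        rw [rr, Finset.mul_sum, ← Finset.sum_add_distrib]
        refine Finset.sum_congr rfl fun i _ => ?_
        rw [log_Fk (k := m + 1) hΨ0 (hp1 i), log_Fk (k := m + 1) hΨ0 (hp2 i)]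
        ring
      have hreal := ptw_real (Nat.succ_pos m) hβ hW (fun i => Fk (m + 1) Ψ (v i).1)
        (fun i => Fk (m + 1) Ψ (v i).2) hF1 hF2 (rr (m + 1) v)
      have hT : ∀ i, T1 m β W c1 c2 Ψ δ i v + T2 m β W c1 c2 Ψ δ i v = Om m δ v *
          ENNReal.ofReal (Aw β W (rr (m + 1) v) * Fk (m + 1) Ψ (v i).1 ^ (2 * (m + 1)) +
            Aw β W (-rr (m + 1) v) * Fk (m + 1) Ψ (v i).2 ^ (2 * (m + 1))) := by
        intro i
        rw [T1, T2, gA, gA, Set.indicator_of_mem (hv i).1, Set.indicator_of_mem (hv i).2,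
          ← Fk_pow (Nat.succ_pos m) Ψ (hp1 i), ← Fk_pow (Nat.succ_pos m) Ψ (hp2 i),
          ENNReal.ofReal_add (mul_nonneg (hA _) (pow_pos (hF1 i) _).le)
            (mul_nonneg (hA _) (pow_pos (hF2 i) _).le),
          ENNReal.ofReal_mul (hA _), ENNReal.ofReal_mul (hA _)]
        ring
      rw [Finset.sum_congr rfl fun i _ => hT i, ← Finset.mul_sum,
        ← ENNReal.ofReal_sum_of_nonneg (fun i _ => add_nonneg
          (mul_nonneg (hA _) (pow_pos (hF1 i) _).le) (mul_nonneg (hA _) (pow_pos (hF2 i) _).le)),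
        hprod, hlog, mul_left_comm, hc, ← ENNReal.ofReal_mul (by positivity), Om]
      calc (∏ i, (om (m + 1) (v i).1 * om (m + 1) (v i).2)) *
            ENNReal.ofReal (∏ i, (Fk (m + 1) Ψ (v i).1 * Fk (m + 1) Ψ (v i).2)) *
            ENNReal.ofReal (Wh β W (rr (m + 1) v +
              ∑ i, (Real.log (Fk (m + 1) Ψ (v i).1) - Real.log (Fk (m + 1) Ψ (v i).2)))) *
            ENNReal.ofReal (gd δ (∑ i, ((v i).1 - (v i).2)))
          = (∏ i, (om (m + 1) (v i).1 * om (m + 1) (v i).2)) *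
            ENNReal.ofReal (gd δ (∑ i, ((v i).1 - (v i).2))) *
            ENNReal.ofReal ((∏ i, (Fk (m + 1) Ψ (v i).1 * Fk (m + 1) Ψ (v i).2)) *
              Wh β W (rr (m + 1) v +
              ∑ i, (Real.log (Fk (m + 1) Ψ (v i).1) - Real.log (Fk (m + 1) Ψ (v i).2)))) := by
            rw [ENNReal.ofReal_mul
              (Finset.prod_nonneg fun i _ => (mul_pos (hF1 i) (hF2 i)).le)]
            ring
        _ ≤ _ := by
            gcongr
    · rw [not_forall] at hv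
      obtain ⟨i, hi⟩ := hv
      have h0 : vK c1 c2 Ψ (v i).1 * vK c1 c2 Ψ (v i).2 = 0 := by
        rw [not_and_or] at hi
        rcases hi with hi | hi
        · rw [vK, Set.indicator_of_notMem hi, zero_mul]
        · rw [vK, vK, Set.indicator_of_notMem hi, mul_zero]
      rw [Finset.prod_eq_zero (Finset.mem_univ i) h0, zero_mul, zero_mul]
      exact bot_le
  have hgdm : Measurable (fun v : Fin (m + 1) → ℂ × ℂ =>
      ENNReal.ofReal (gd δ (∑ i, ((v i).1 - (v i).2)))) := by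
    unfold gd
    fun_prop
  have homm : Measurable (om (m + 1)) := by
    unfold om
    fun_prop
  have hOmm : Measurable (Om m δ) := by
    refine Measurable.mul (Finset.measurable_prod _ fun i _ => ?_) hgdm
    exact (homm.comp (by fun_prop)).mul (homm.comp (by fun_prop))
  have hrrm : Measurable (fun v : Fin (m + 1) → ℂ × ℂ => rr (m + 1) v) := by
    unfold rr
    fun_prop
  have hAnn : MeasurableSet (Ann c1 c2) := by
    have : Ann c1 c2 = (fun ξ : ℂ => ‖ξ‖) ⁻¹' Set.Icc c1 c2 := by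
      ext ξ
      simp [Ann]
    rw [this]
    exact measurable_norm measurableSet_Icc
  have hgAm : Measurable (gA m c1 c2 Ψ) := by
    refine Measurable.indicator ?_ hAnn
    fun_prop
  have hT1m : ∀ i, Measurable (fun v => T1 m β W c1 c2 Ψ δ i v) := fun i =>
    (hOmm.mul ((hAc.measurable.comp hrrm).ennreal_ofReal)).mul (hgAm.comp (by fun_prop))
  have hT2m : ∀ i, Measurable (fun v => T2 m β W c1 c2 Ψ δ i v) := fun i =>
    (hOmm.mul ((hAc.measurable.comp hrrm.neg).ennreal_ofReal)).mul (hgAm.comp (by fun_prop))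
  calc _ ≤ ∫⁻ v : Fin (m + 1) → ℂ × ℂ,
        c * ∑ i, (T1 m β W c1 c2 Ψ δ i v + T2 m β W c1 c2 Ψ δ i v) := lintegral_mono hpt
    _ = c * ∑ i, ((∫⁻ v, T1 m β W c1 c2 Ψ δ i v) + ∫⁻ v, T2 m β W c1 c2 Ψ δ i v) := by
        have h1 : ∀ i ∈ Finset.univ, Measurable
            (fun v => T1 m β W c1 c2 Ψ δ i v + T2 m β W c1 c2 Ψ δ i v) :=
          fun i _ => (hT1m i).add (hT2m i)
        rw [lintegral_const_mul _ (by fun_prop), lintegral_finsetSum _ h1]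
        congr 1
        exact Finset.sum_congr rfl fun i _ => lintegral_add_left (hT1m i) _
    _ = c * ∑ _i : Fin (m + 1), (2 * ∫⁻ v, T1 m β W c1 c2 Ψ δ 0 v) := by
        congr 1
        refine Finset.sum_congr rfl fun i _ => ?_
        rw [T2_eq, T1_eq, two_mul]
    _ = ∫⁻ v, T1 m β W c1 c2 Ψ δ 0 v := by
        rw [Finset.sum_const, Finset.card_univ, Fintype.card_fin, nsmul_eq_mul, ← mul_assoc,
          ← mul_assoc]
        have h1 : c * ((m + 1 : ℕ) : ℝ≥0∞) * 2 = 1 := by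
          rw [hc, ← ENNReal.ofReal_natCast (m + 1), ← ENNReal.ofReal_mul (by positivity),
            show (2 : ℝ≥0∞) = ENNReal.ofReal 2 by simp, ← ENNReal.ofReal_mul (by positivity),
            show 1 / (2 * ((m + 1 : ℕ) : ℝ)) * ((m + 1 : ℕ) : ℝ) * 2 = 1 by
              have : ((m + 1 : ℕ) : ℝ) ≠ 0 := by positivity
              field_simp, ENNReal.ofReal_one]
        rw [h1, one_mul]

end Helper85.BP.P
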